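import Pool.Agent.N929.EZ.Stm3
import Pool.Agent.N400.EX.TOG

/-!
# Project EZ (helper929), BPI (helper327): a bump in a square is an insertion
-/

set_option autoImplicit false

namespace Pool.Agent.N327.EZ

open Pool.Agent.H976R2 Pool.Agent.H976R2.Dir Finset
open Pool.Agent.N929.EX Pool.Agent.N929.EY Pool.Agent.N929.EZ Pool.Agent.N400.EX
open scoped Classical

lemma dv_inj {d d' : Dir} (h : Lip.dv d = Lip.dv d') : d = d' := by
  cases d <;> cases d' <;> simp [Lip.dv, dx, dy] at h ⊢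

lemma word_ext {w w' : List Dir} (hl : w.length = w'.length)
    (h : ∀ j, j ≤ w.length → Lip.PP w j = Lip.PP w' j) : w = w' := by
  apply List.ext_getElem hl
  intro i h1 h2
  have e1 := Lip.PP_succ w i h1
  have e2 := Lip.PP_succ w' i h2
  rw [h (i + 1) (by omega), h i (by omega), e2] at e1
  have e3 := dv_inj (add_left_cancel e1)
  unfold lt at e3
  rw [List.getD_eq_getElem _ _ h1, List.getD_eq_getElem _ _ h2] at e3
  exact e3.symm

/-- a site which is not a corner is adjacent to at most one corner -/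
lemma corner_uniq {q A P P' : ℤ × ℤ} {d d' : Dir} (hA : ¬ Cn q A) (hP : Cn q P) (hP' : Cn q P')
    (h : P = A + Lip.dv d) (h' : P' = A + Lip.dv d') : P = P' := by
  obtain ⟨qx, qy⟩ := q
  obtain ⟨ax, ay⟩ := A
  obtain ⟨px, py⟩ := P
  obtain ⟨px', py'⟩ := P'
  cases d <;> cases d' <;>
    simp only [Cn, Lip.dv, dx, dy, Prod.mk_add_mk, Prod.mk.injEq] at * <;> omega

lemma corner_uniq' {q A P P' : ℤ × ℤ} {d d' : Dir} (hA : ¬ Cn q A) (hP : Cn q P) (hP' : Cn q P')
    (h : A = P + Lip.dv d) (h' : A = P' + Lip.dv d') : P = P' := by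
  obtain ⟨qx, qy⟩ := q
  obtain ⟨ax, ay⟩ := A
  obtain ⟨px, py⟩ := P
  obtain ⟨px', py'⟩ := P'
  cases d <;> cases d' <;>
    simp only [Cn, Lip.dv, dx, dy, Prod.mk_add_mk, Prod.mk.injEq] at * <;> omega

/-- the lower left corner of the square -/
lemma q_eq {q v : ℤ × ℤ} {d : Dir} (h0 : Cn q v) (h1 : Cn q (v + Lip.dv d)) :
    q = (min v.1 (v.1 + dx (sd q v d) + dx d), min v.2 (v.2 + dy (sd q v d) + dy d)) := by
  obtain ⟨qx, qy⟩ := q
  obtain ⟨vx, vy⟩ := v
  cases d
  · by_cases h : vy = qy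
    · simp [Cn, Lip.dv, dx, dy, sd, h] at *
      omega
    · simp [Cn, Lip.dv, dx, dy, sd, h] at *
      omega
  · by_cases h : vy = qy
    · simp [Cn, Lip.dv, dx, dy, sd, h] at *
      omega
    · simp [Cn, Lip.dv, dx, dy, sd, h] at *
      omega
  · by_cases h : vx = qx
    · simp [Cn, Lip.dv, dx, dy, sd, h] at *
      omega
    · simp [Cn, Lip.dv, dx, dy, sd, h] at *
      omega
  · by_cases h : vx = qx
    · simp [Cn, Lip.dv, dx, dy, sd, h] at *
      omega
    · simp [Cn, Lip.dv, dx, dy, sd, h] at *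
      omega

/-- the position after the deletion of the bump -/
lemma PP_del {n k : ℕ} {w : List Dir} {q : ℤ × ℤ} {w' : List Dir} (h : Bp n k w q w') (hk0 : 0 < k)
    (hkn : k + 1 < n) : del w' k = w := by
  obtain ⟨hl, hs⟩ := mem_SW.mp h.sw
  obtain ⟨hl', hs'⟩ := mem_SW.mp h.sw'
  obtain ⟨a1, a2, a3, a4⟩ := coreB hs' h.at3
  have hk : k < (del w' k).length := by omega
  have hP : ∀ j, j ≤ k → Lip.PP (del w' k) j = Lip.PP w' j := by
    intro j hj
    have := Lip.PP_ins_le (del w' k) k j (sd q (Lip.PP (del w' k) k) (lt (del w' k) k)) hk hj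
    rw [a3] at this
    exact this.symm
  have hP' : ∀ j, k < j → Lip.PP (del w' k) j = Lip.PP w' (j + 2) := by
    intro j hj
    have := Lip.PP_ins_gt (del w' k) k j (sd q (Lip.PP (del w' k) k) (lt (del w' k) k)) hk hj
    rw [a3] at this
    exact this.symm
  have hlo : ∀ j, j < k → Lip.PP (del w' k) j = Lip.PP w j := by
    intro j hj
    rw [hP j (by omega), h.lo j hj]
  have hhi : ∀ j, k + 1 < j → j ≤ n → Lip.PP (del w' k) j = Lip.PP w j := by
    intro j hj hjn
    rw [hP' j (by omega), h.hi j hj hjn]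
  -- time `k`
  have hkk : Lip.PP (del w' k) k = Lip.PP w k := by
    obtain ⟨i, rfl⟩ : ∃ i, k = i + 1 := ⟨k - 1, by omega⟩
    have e1 := Lip.PP_succ (del w' (i + 1)) i (by omega)
    have e2 := Lip.PP_succ w i (by omega)
    rw [hlo i (by omega)] at e1
    have hA : ¬ Cn q (Lip.PP w i) := by
      intro hc
      have := (h.at1.2 i (by omega)).1 hc
      omega
    have c1 : Cn q (Lip.PP (del w' (i + 1)) (i + 1)) := (a2.2 (i + 1) (by omega)).2 ⟨le_rfl, by omega⟩
    have c2 : Cn q (Lip.PP w (i + 1)) := (h.at1.2 (i + 1) (by omega)).2 ⟨le_rfl, by omega⟩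
    exact corner_uniq hA c1 c2 e1 e2
  -- time `k + 1`
  have hkk' : Lip.PP (del w' k) (k + 1) = Lip.PP w (k + 1) := by
    have e1 := Lip.PP_succ (del w' k) (k + 1) (by omega)
    have e2 := Lip.PP_succ w (k + 1) (by omega)
    rw [hhi (k + 1 + 1) (by omega) (by omega)] at e1
    have hA : ¬ Cn q (Lip.PP w (k + 1 + 1)) := by
      intro hc
      have := (h.at1.2 (k + 1 + 1) (by omega)).1 hc
      omega
    have c1 : Cn q (Lip.PP (del w' k) (k + 1)) := (a2.2 (k + 1) (by omega)).2 ⟨by omega, le_rfl⟩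
    have c2 : Cn q (Lip.PP w (k + 1)) := (h.at1.2 (k + 1) (by omega)).2 ⟨by omega, le_rfl⟩
    exact corner_uniq' hA c1 c2 e1 e2
  apply word_ext (by omega)
  intro j hj
  rcases lt_trichotomy j k with h1 | h1 | h1
  · exact hlo j h1
  · rw [h1]; exact hkk
  · rcases eq_or_lt_of_le (show k + 1 ≤ j by omega) with h2 | h2
    · rw [← h2]; exact hkk'
    · exact hhi j h2 (by omega)

theorem bpi : S_BPI := by
  intro n k w q w' h hk0 hkn
  obtain ⟨hl, hs⟩ := mem_SW.mp h.sw
  obtain ⟨hl', hs'⟩ := mem_SW.mp h.sw'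
  obtain ⟨a1, a2, a3, a4⟩ := coreB hs' h.at3
  rw [PP_del h hk0 hkn] at a3
  have hk : k < w.length := by omega
  have c0 : Cn q (Lip.PP w k) := (h.at1.2 k (by omega)).2 ⟨le_refl _, by omega⟩
  have c1 : Cn q (Lip.PP w (k + 1)) := (h.at1.2 (k + 1) (by omega)).2 ⟨by omega, le_refl _⟩
  rw [Lip.PP_succ w k hk] at c1
  refine ⟨sd q (Lip.PP w k) (lt w k), ?_, a3.symm, q_eq c0 c1⟩
  unfold adm
  rw [Finset.mem_filter, Finset.mem_product]
  refine ⟨⟨Finset.mem_range.2 hk, Finset.mem_univ _⟩, (bashA q (Lip.PP w k) (lt w k) c0 c1).1, ?_⟩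
  exact (coreA hs h.at1).1

end Pool.Agent.N327.EZ
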